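import Mathlib

/-!
# Consecutive inclusions of Čech complexes of the hypercube are null-homotopic

For every `n ≥ 1` and every integer `r ≥ 0`, the inclusion of the Čech complex
`N (I_n, r)` of the hypercube graph into `N (I_n, r + 1)` is null-homotopic.

Proof: setting the coordinate `i` to `false` first at the vertices of even weight and then at the
remaining ones gives two contiguities, in `N (I_n, r + 1)`, of simplicial maps on `N (I_n, r)`.
-/

set_option autoImplicit false

open Finset

namespace Pool.Agent.Results.MP_117f64_co.NullHomotopic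

/-- The vertices of the `n`-dimensional hypercube graph. -/
abbrev Cube (n : ℕ) : Type := Fin n → Bool

/-- The simplices of the Čech complex `N (I_n, r)`, `r ≥ 0` an integer. -/
def IsSimplex (n r : ℕ) (σ : Finset (Cube n)) : Prop :=
  σ.Nonempty ∧
    ((Even r ∧ ∃ v : Cube n, ∀ x ∈ σ, hammingDist v x ≤ r / 2) ∨
     (Odd r ∧ ∃ v w : Cube n, hammingDist v w = 1 ∧
        ∀ x ∈ σ, hammingDist v x ≤ (r - 1) / 2 ∨ hammingDist w x ≤ (r - 1) / 2))

/-- The points of the geometric realization of `N (I_n, r)`, in barycentric coordinates. -/
def points (n r : ℕ) : Set (Cube n → ℝ) :=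
  {t | (∀ v, 0 ≤ t v) ∧ ∑ v, t v = 1 ∧ IsSimplex n r (univ.filter (fun v => t v ≠ 0))}

/-! ### Combinatorics -/

theorem even_tri {n : ℕ} (x y z : Cube n) :
    Even (hammingDist x y + hammingDist y z + hammingDist x z) := by
  unfold hammingDist
  rw [card_filter, card_filter, card_filter, ← sum_add_distrib, ← sum_add_distrib]
  apply Finset.even_sum
  intro i _
  cases x i <;> cases y i <;> cases z i <;> simp

/-- the weight of a vertex -/
def wt {n : ℕ} (x : Cube n) : ℕ := hammingDist x (fun _ => false)

theorem parity {n : ℕ} (v x : Cube n) : Even (hammingDist v x + wt v + wt x) := by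
  have := even_tri v x (fun _ => false)
  unfold wt
  convert this using 1
  ring

/-- set the coordinates in `S` to `false` -/
def fS {n : ℕ} (S : Finset (Fin n)) (x : Cube n) : Cube n := fun j => if j ∈ S then false else x j

theorem fS_dist {n : ℕ} (S : Finset (Fin n)) (x y : Cube n) :
    hammingDist (fS S x) (fS S y) ≤ hammingDist x y := by
  unfold hammingDist fS
  apply card_le_card
  intro i hi
  simp only [mem_filter, mem_univ, true_and] at hi ⊢
  intro h
  apply hi
  split_ifs <;> simp [h]

theorem fS_near {n : ℕ} (i : Fin n) (x : Cube n) : hammingDist x (fS {i} x) ≤ 1 := by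
  unfold hammingDist fS
  calc _ ≤ ({i} : Finset (Fin n)).card := by
        apply card_le_card
        intro j hj
        simp only [mem_filter, mem_univ, true_and, mem_singleton] at hj ⊢
        by_contra h
        rw [if_neg h] at hj
        exact hj rfl
    _ = 1 := card_singleton i

/-- flip the coordinate `i` -/
def flip {n : ℕ} (i : Fin n) (x : Cube n) : Cube n := Function.update x i (!(x i))

theorem flip_dist {n : ℕ} (i : Fin n) (x : Cube n) : hammingDist x (flip i x) = 1 := by
  unfold hammingDist flip
  rw [card_eq_one]
  refine ⟨i, ?_⟩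
  ext j
  simp only [mem_filter, mem_univ, true_and, mem_singleton]
  constructor
  · intro h
    by_contra hji
    rw [Function.update_of_ne hji] at h
    exact h rfl
  · rintro rfl
    simp

theorem fS_flip {n : ℕ} (i : Fin n) (x : Cube n) : fS {i} x = x ∨ fS {i} x = flip i x := by
  by_cases h : x i = false
  · left
    funext j
    unfold fS
    by_cases hj : j = i
    · subst hj; simp [h]
    · simp [hj]
  · right
    have h' : x i = true := by simpa using h
    funext j
    unfold fS flip
    by_cases hj : j = i
    · subst hj; simp [h']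
    · simp [hj]

/-- set the coordinate `i` to `false` at the vertices of even weight -/
def g {n : ℕ} (i : Fin n) (x : Cube n) : Cube n := if Even (wt x) then fS {i} x else x

theorem IsSimplex.subset {n r : ℕ} {σ τ : Finset (Cube n)} (h : IsSimplex n r σ)
    (hτ : τ ⊆ σ) (hne : τ.Nonempty) : IsSimplex n r τ := by
  refine ⟨hne, ?_⟩
  rcases h.2 with ⟨he, v, hv⟩ | ⟨ho, v, w, hvw, hx⟩
  · exact Or.inl ⟨he, v, fun x hx => hv x (hτ hx)⟩
  · exact Or.inr ⟨ho, v, w, hvw, fun x hx' => hx x (hτ hx')⟩

theorem IsSimplex.image {n r : ℕ} {σ : Finset (Cube n)} (h : IsSimplex n r σ)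
    (S : Finset (Fin n)) : IsSimplex n r (σ.image (fS S)) := by
  refine ⟨h.1.image _, ?_⟩
  rcases h.2 with ⟨he, v, hv⟩ | ⟨ho, v, w, hvw, hx⟩
  · refine Or.inl ⟨he, fS S v, fun x hx => ?_⟩
    obtain ⟨y, hy, rfl⟩ := mem_image.1 hx
    exact (fS_dist S v y).trans (hv y hy)
  · refine Or.inr ⟨ho, ?_⟩
    by_cases heq : fS S v = fS S w
    · -- a coordinate exists since `v ≠ w`
      have hi : ∃ i : Fin n, v i ≠ w i := by
        by_contra hcon
        push Not at hcon
        have : v = w := funext hcon
        rw [this, hammingDist_self] at hvw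
        omega
      obtain ⟨i, -⟩ := hi
      refine ⟨fS S v, flip i (fS S v), flip_dist i _, fun x hx' => Or.inl ?_⟩
      obtain ⟨y, hy, rfl⟩ := mem_image.1 hx'
      rcases hx y hy with h1 | h1
      · exact (fS_dist S v y).trans h1
      · rw [heq]
        exact (fS_dist S w y).trans h1
    · refine ⟨fS S v, fS S w, ?_, fun x hx' => ?_⟩
      · have h1 := fS_dist S v w
        have h2 : hammingDist (fS S v) (fS S w) ≠ 0 := by
          rw [hammingDist_ne_zero]; exact heq
        omega
      · obtain ⟨y, hy, rfl⟩ := mem_image.1 hx'
        rcases hx y hy with h1 | h1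
        · exact Or.inl ((fS_dist S v y).trans h1)
        · exact Or.inr ((fS_dist S w y).trans h1)

/-- the two contiguities -/
theorem key {n r : ℕ} {σ : Finset (Cube n)} (h : IsSimplex n r σ) (i : Fin n) :
    IsSimplex n (r + 1) (σ ∪ σ.image (g i)) ∧
      IsSimplex n (r + 1) (σ.image (g i) ∪ σ.image (fS {i})) := by
  rcases h.2 with ⟨he, v, hv⟩ | ⟨ho, v, w, hvw, hx⟩
  · -- `r` even
    have hbig : IsSimplex n (r + 1) (σ ∪ σ.image (fS {i})) := by
      refine ⟨h.1.mono subset_union_left, Or.inr ⟨he.add_one, v, flip i v, flip_dist i v, ?_⟩⟩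
      intro x hx
      have hr : (r + 1 - 1) / 2 = r / 2 := by simp
      rw [hr]
      rcases mem_union.1 hx with hx | hx
      · exact Or.inl (hv x hx)
      · obtain ⟨y, hy, rfl⟩ := mem_image.1 hx
        have h1 := (fS_dist {i} v y).trans (hv y hy)
        rcases fS_flip i v with h2 | h2
        · left; rwa [h2] at h1
        · right; rwa [h2] at h1
    have hg : σ.image (g i) ⊆ σ ∪ σ.image (fS {i}) := by
      intro x hx
      obtain ⟨y, hy, rfl⟩ := mem_image.1 hx
      unfold g
      split_ifs
      · exact mem_union_right _ (mem_image_of_mem _ hy)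
      · exact mem_union_left _ hy
    exact ⟨hbig.subset (union_subset subset_union_left hg) (h.1.mono subset_union_left),
      hbig.subset (union_subset hg subset_union_right) ((h.1.image _).mono subset_union_left)⟩
  · -- `r` odd
    obtain ⟨s, rfl⟩ := ho
    have hs : (2 * s + 1 - 1) / 2 = s := by omega
    rw [hs] at hx
    have hs' : (2 * s + 1 + 1) / 2 = s + 1 := by omega
    -- choose the two centres by parity
    obtain ⟨u, u', huu', hu, hux⟩ : ∃ u u' : Cube n, hammingDist u u' = 1 ∧ Even (wt u + s) ∧
        ∀ x ∈ σ, hammingDist u x ≤ s ∨ hammingDist u' x ≤ s := by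
      by_cases hp : Even (wt v + s)
      · exact ⟨v, w, hvw, hp, hx⟩
      · refine ⟨w, v, by rw [hammingDist_comm]; exact hvw, ?_, fun x hx' => (hx x hx').symm⟩
        have h1 := parity v w
        rw [hvw] at h1
        rw [Nat.even_iff] at *
        omega
    have hpu' : Odd (wt u' + s) := by
      have h1 := parity u u'
      rw [huu'] at h1
      rw [Nat.even_iff] at *
      rw [Nat.odd_iff]
      omega
    have hud : ∀ x ∈ σ, hammingDist u x ≤ s + 1 := by
      intro x hx'
      rcases hux x hx' with h1 | h1
      · omega
      · have := hammingDist_triangle u u' x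
        omega
    have hud' : ∀ x ∈ σ, hammingDist u' x ≤ s + 1 := by
      intro x hx'
      rcases hux x hx' with h1 | h1
      · have := hammingDist_triangle u' u x
        rw [hammingDist_comm u' u] at this
        omega
      · omega
    constructor
    · refine ⟨h.1.mono subset_union_left, Or.inl ⟨⟨s + 1, by ring⟩, u, ?_⟩⟩
      intro x hx'
      rw [hs']
      rcases mem_union.1 hx' with hx' | hx'
      · exact hud x hx'
      · obtain ⟨y, hy, rfl⟩ := mem_image.1 hx'
        unfold g
        split_ifs with hyp
        · have h1 := hud y hy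
          have h2 := parity u y
          have h3 := fS_near i y
          have h4 := hammingDist_triangle u y (fS {i} y)
          rw [Nat.even_iff] at *
          omega
        · exact hud y hy
    · refine ⟨(h.1.image _).mono subset_union_left, Or.inl ⟨⟨s + 1, by ring⟩, fS {i} u', ?_⟩⟩
      intro x hx'
      rw [hs']
      have hf : ∀ y ∈ σ, hammingDist (fS {i} u') (fS {i} y) ≤ s + 1 :=
        fun y hy => (fS_dist {i} u' y).trans (hud' y hy)
      rcases mem_union.1 hx' with hx' | hx'
      · obtain ⟨y, hy, rfl⟩ := mem_image.1 hx'
        unfold g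
        split_ifs with hyp
        · exact hf y hy
        · have h1 := hud' y hy
          have h2 := parity u' y
          have h3 := fS_near i u'
          have h4 := hammingDist_triangle (fS {i} u') u' y
          rw [hammingDist_comm (fS {i} u') u'] at h4
          rw [Nat.even_iff] at *
          rw [Nat.odd_iff] at hpu'
          omega
      · obtain ⟨y, hy, rfl⟩ := mem_image.1 hx'
        exact hf y hy

theorem IsSimplex.succ {n r : ℕ} (hn : 1 ≤ n) {σ : Finset (Cube n)} (h : IsSimplex n r σ) :
    IsSimplex n (r + 1) σ :=
  (key h ⟨0, hn⟩).1.subset subset_union_left h.1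

/-! ### Topology -/

/-- A vertex map carries simplices of `N (I_n, r)` into simplices of `N (I_n, r + 1)`. -/
def Contig (n r : ℕ) (a b : Cube n → Cube n) : Prop :=
  ∀ σ, IsSimplex n r σ → IsSimplex n (r + 1) (σ.image a ∪ σ.image b)

theorem Contig.left {n r : ℕ} {a b : Cube n → Cube n} (h : Contig n r a b) : Contig n r a a := by
  intro σ hσ
  rw [union_self]
  exact (h σ hσ).subset subset_union_left (hσ.1.image _)

theorem Contig.right {n r : ℕ} {a b : Cube n → Cube n} (h : Contig n r a b) : Contig n r b b := by
  intro σ hσ
  rw [union_self]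
  exact (h σ hσ).subset subset_union_right (hσ.1.image _)

/-- push forward of barycentric coordinates -/
noncomputable def pushFun {n : ℕ} (a : Cube n → Cube n) (t : Cube n → ℝ) : Cube n → ℝ :=
  fun w => ∑ v, if a v = w then t v else 0

theorem push_nonneg {n : ℕ} (a : Cube n → Cube n) {t : Cube n → ℝ} (ht : ∀ v, 0 ≤ t v) (w : Cube n) :
    0 ≤ pushFun a t w := by
  unfold pushFun
  refine sum_nonneg fun v _ => ?_
  split_ifs
  · exact ht v
  · exact le_rfl

theorem push_sum {n : ℕ} (a : Cube n → Cube n) {t : Cube n → ℝ} :
    ∑ w, pushFun a t w = ∑ v, t v := by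
  unfold pushFun
  rw [sum_comm]
  refine sum_congr rfl fun v _ => ?_
  simp

theorem push_support {n : ℕ} (a : Cube n → Cube n) {t : Cube n → ℝ} {w : Cube n}
    (hw : pushFun a t w ≠ 0) : w ∈ (univ.filter (fun v => t v ≠ 0)).image a := by
  unfold pushFun at hw
  obtain ⟨v, -, hv⟩ := exists_ne_zero_of_sum_ne_zero hw
  rw [mem_image]
  by_cases h : a v = w
  · rw [if_pos h] at hv
    exact ⟨v, by simpa using hv, h⟩
  · rw [if_neg h] at hv
    exact absurd rfl hv

theorem push_continuous {n : ℕ} (a : Cube n → Cube n) : Continuous (pushFun a) := by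
  unfold pushFun
  refine continuous_pi fun w => continuous_finsetSum _ fun v _ => ?_
  by_cases h : a v = w
  · simp only [h, if_true]; exact continuous_apply v
  · simp only [h, if_false]; exact continuous_const

theorem mem_points_of {n r : ℕ} {a b : Cube n → Cube n} (h : Contig n r a b)
    {t : Cube n → ℝ} (ht : t ∈ points n r) {s : ℝ} (hs : s ∈ Set.Icc (0 : ℝ) 1) :
    (fun w => (1 - s) * pushFun a t w + s * pushFun b t w) ∈ points n (r + 1) := by
  obtain ⟨h0, h1, h2⟩ := ht
  have hsum : ∑ w, ((1 - s) * pushFun a t w + s * pushFun b t w) = 1 := by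
    rw [sum_add_distrib, ← mul_sum, ← mul_sum, push_sum, push_sum, h1]
    ring
  refine ⟨fun v => ?_, hsum, ?_⟩
  · have ha := push_nonneg a h0 v
    have hb := push_nonneg b h0 v
    have h3 : 0 ≤ 1 - s := by linarith [hs.2]
    have h4 : 0 ≤ s := hs.1
    positivity
  · refine (h _ h2).subset ?_ ?_
    · intro w hw
      rw [mem_filter] at hw
      by_cases ha : pushFun a t w = 0
      · by_cases hb : pushFun b t w = 0
        · exfalso; apply hw.2; simp [ha, hb]
        · exact mem_union_right _ (push_support b hb)
      · exact mem_union_left _ (push_support a ha)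
    · by_contra hne
      rw [not_nonempty_iff_eq_empty, filter_eq_empty_iff] at hne
      push Not at hne
      rw [sum_congr rfl (fun w hw => hne hw)] at hsum
      simp at hsum

theorem mem_points_push {n r : ℕ} {a : Cube n → Cube n} (h : Contig n r a a)
    {t : Cube n → ℝ} (ht : t ∈ points n r) : pushFun a t ∈ points n (r + 1) := by
  have := mem_points_of h ht (s := 0) ⟨le_rfl, zero_le_one⟩
  simpa using this

/-- the map of realizations induced by a vertex map -/
noncomputable def push {n r : ℕ} (a : Cube n → Cube n) (h : Contig n r a a) :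
    C(points n r, points n (r + 1)) where
  toFun t := ⟨pushFun a t.1, mem_points_push h t.2⟩
  continuous_toFun := by
    apply Continuous.subtype_mk
    exact (push_continuous a).comp continuous_subtype_val

theorem homotopic_of_contig {n r : ℕ} {a b : Cube n → Cube n} (h : Contig n r a b) :
    (push a h.left).Homotopic (push b h.right) := by
  refine ⟨{
    toFun := fun p => ⟨fun w => (1 - (p.1 : ℝ)) * pushFun a p.2.1 w + (p.1 : ℝ) * pushFun b p.2.1 w,
      mem_points_of h p.2.2 p.1.2⟩
    continuous_toFun := ?_
    map_zero_left := ?_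
    map_one_left := ?_ }⟩
  · apply Continuous.subtype_mk
    refine continuous_pi fun w => ?_
    have h1 : Continuous fun p : unitInterval × points n r => (p.1 : ℝ) :=
      continuous_subtype_val.comp continuous_fst
    have h2 : Continuous fun p : unitInterval × points n r => pushFun a p.2.1 w :=
      (continuous_apply w).comp ((push_continuous a).comp (continuous_subtype_val.comp continuous_snd))
    have h3 : Continuous fun p : unitInterval × points n r => pushFun b p.2.1 w :=
      (continuous_apply w).comp ((push_continuous b).comp (continuous_subtype_val.comp continuous_snd))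
    exact ((continuous_const.sub h1).mul h2).add (h1.mul h3)
  · intro t
    apply Subtype.ext
    funext w
    simp [push]
  · intro t
    apply Subtype.ext
    funext w
    simp [push]

theorem contig_step {n r : ℕ} (S : Finset (Fin n)) (i : Fin n) :
    Contig n r (fS S) (fun x => g i (fS S x)) ∧
      Contig n r (fun x => g i (fS S x)) (fS (insert i S)) := by
  have hcomp : ∀ σ : Finset (Cube n), σ.image (fS (insert i S)) = (σ.image (fS S)).image (fS {i}) := by
    intro σ
    rw [image_image]
    apply image_congr
    intro x _
    funext j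
    simp only [fS, Function.comp, mem_insert, mem_singleton]
    by_cases h1 : j = i <;> by_cases h2 : j ∈ S <;> simp [h1, h2]
  have hcomp2 : ∀ σ : Finset (Cube n), σ.image (fun x => g i (fS S x)) = (σ.image (fS S)).image (g i) := by
    intro σ
    rw [image_image]
    rfl
  constructor
  · intro σ hσ
    rw [hcomp2]
    exact (key (hσ.image S) i).1
  · intro σ hσ
    rw [hcomp2, hcomp]
    exact (key (hσ.image S) i).2

theorem contig_self {n r : ℕ} (hn : 1 ≤ n) (S : Finset (Fin n)) : Contig n r (fS S) (fS S) := by
  intro σ hσ
  rw [union_self]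
  exact (hσ.image S).succ hn

theorem homotopic_all {n r : ℕ} (hn : 1 ≤ n) (S : Finset (Fin n)) :
    (push (n := n) (r := r) (fS ∅) (contig_self hn ∅)).Homotopic (push (fS S) (contig_self hn S)) := by
  induction S using Finset.induction_on with
  | empty => exact ContinuousMap.Homotopic.refl _
  | insert i S _ ih =>
    obtain ⟨h1, h2⟩ := contig_step (r := r) S i
    exact (ih.trans (homotopic_of_contig h1)).trans (homotopic_of_contig h2)

theorem fS_empty {n : ℕ} (v : Cube n) : fS ∅ v = v := by
  funext j; simp [fS]

theorem fS_univ {n : ℕ} (v : Cube n) : fS univ v = fun _ => false := by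
  funext j; simp [fS]

/-- **Q1**, affirmatively: for every `n ≥ 1` and every integer `r ≥ 0`, the inclusion of `N (I_n, r)`
in `N (I_n, r + 1)` is null-homotopic. -/
theorem result (n r : ℕ) (hn : 1 ≤ n) :
    ∃ hsub : points n r ⊆ points n (r + 1),
      ContinuousMap.Nullhomotopic
        (⟨Set.inclusion hsub, continuous_inclusion hsub⟩ : C(points n r, points n (r + 1))) := by
  refine ⟨fun t ht => ⟨ht.1, ht.2.1, ht.2.2.succ hn⟩, ?_⟩
  -- the constant value
  have hc : (Pi.single (fun _ => false) 1 : Cube n → ℝ) ∈ points n (r + 1) := by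
    refine ⟨fun v => ?_, by simp, ?_⟩
    · by_cases h : v = fun _ => false
      · subst h; simp
      · simp [Pi.single_eq_of_ne h]
    · have hs : IsSimplex n r {(fun _ => false : Cube n)} := by
        refine ⟨singleton_nonempty _, ?_⟩
        rcases Nat.even_or_odd r with he | ho
        · exact Or.inl ⟨he, fun _ => false, fun x hx => by
            rw [mem_singleton.1 hx, hammingDist_self]; exact Nat.zero_le _⟩
        · exact Or.inr ⟨ho, fun _ => false, flip ⟨0, hn⟩ (fun _ => false), flip_dist _ _,
            fun x hx => Or.inl (by rw [mem_singleton.1 hx, hammingDist_self]; exact Nat.zero_le _)⟩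
      have hfil : (univ.filter (fun v => (Pi.single (fun _ => false) 1 : Cube n → ℝ) v ≠ 0)) =
          {(fun _ => false : Cube n)} := by
        ext v
        simp only [mem_filter, mem_univ, true_and, mem_singleton]
        constructor
        · intro h
          by_contra hv
          exact h (Pi.single_eq_of_ne hv _)
        · rintro rfl
          simp
      rw [hfil]
      exact hs.succ hn
  refine ⟨⟨_, hc⟩, ?_⟩
  have h1 := homotopic_all (r := r) hn (univ : Finset (Fin n))
  have e1 : (⟨Set.inclusion (fun t ht => ⟨ht.1, ht.2.1, ht.2.2.succ hn⟩ :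
      points n r ⊆ points n (r + 1)), continuous_inclusion _⟩ : C(points n r, points n (r + 1))) =
      push (fS ∅) (contig_self hn ∅) := by
    ext t w
    simp [push, pushFun, fS_empty, Set.inclusion]
  have e2 : (ContinuousMap.const (points n r) (⟨_, hc⟩ : points n (r + 1))) =
      push (fS univ) (contig_self hn univ) := by
    ext t w
    simp only [ContinuousMap.const_apply, push, ContinuousMap.coe_mk, pushFun, fS_univ]
    by_cases hw : w = fun _ => false
    · subst hw
      simp [t.2.2.1]
    · rw [Pi.single_eq_of_ne hw]
      symm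
      apply sum_eq_zero
      intro v _
      rw [if_neg (fun h => hw h.symm)]
  rw [e1, e2]
  exact h1

end Pool.Agent.Results.MP_117f64_co.NullHomotopic
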